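import Pool.Agent.H354.BG.Stm

set_option autoImplicit false

/-! Project BG (helper354), tasks ADMX and VCC (helper665): admissibility of syllables and validity
of codes are decidable. -/

namespace Pool.Agent.H665.BG.ADM

open Pool.Agent.H354.BG
open Pool.Agent.H482R3.EA (W inv ev PP xx evF cond1 cond2 Syl gOf Sys St Near InD Adm Act)

section tools

variable {α β γ : Type} [Primcodable α] [Primcodable β] [Primcodable γ]

theorem cp_comp {p : β → Prop} {f : α → β} (hp : ComputablePred p) (hf : Computable f) :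
    ComputablePred (fun x => p (f x)) := by
  obtain ⟨d, h⟩ := hp
  exact ⟨fun x => d (f x), h.comp hf⟩

theorem cp_and {p q : α → Prop} (hp : ComputablePred p) (hq : ComputablePred q) :
    ComputablePred (fun x => p x ∧ q x) :=
  (Pool.Agent.H482R3.EB.Asm.cp α inferInstance 0).1 p q hp hq

theorem cp_sum {p : α → β → Prop} {q : α → γ → Prop}
    (hp : ComputablePred (fun x : α × β => p x.1 x.2))
    (hq : ComputablePred (fun x : α × γ => q x.1 x.2)) :
    ComputablePred (fun x : α × (β ⊕ γ) => Sum.elim (p x.1) (q x.1) x.2) := by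
  classical
  rw [ComputablePred.computable_iff] at hp hq ⊢
  obtain ⟨f, hf, hf'⟩ := hp
  obtain ⟨g, hg, hg'⟩ := hq
  refine ⟨fun x => Sum.casesOn (motive := fun _ => Bool) x.2 (fun b => f (x.1, b))
    (fun c => g (x.1, c)), ?_, ?_⟩
  · exact Computable.sumCasesOn Computable.snd
      (hf.comp ((Computable.fst.comp Computable.fst).pair Computable.snd)).to₂
      (hg.comp ((Computable.fst.comp Computable.fst).pair Computable.snd)).to₂
  · funext ⟨x, y⟩
    cases y with
    | inl b => exact congrFun hf' (x, b)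
    | inr c => exact congrFun hg' (x, c)

theorem cp_opt {p : β → Prop} (hp : ComputablePred p) :
    ComputablePred (fun x : Option β => ∀ y, x = some y → p y) := by
  classical
  rw [ComputablePred.computable_iff] at hp ⊢
  obtain ⟨f, hf, hf'⟩ := hp
  refine ⟨fun x => Option.casesOn (motive := fun _ => Bool) x true (fun b => f b), ?_, ?_⟩
  · exact Computable.option_casesOn Computable.id (Computable.const true)
      (hf.comp Computable.snd).to₂
  · funext x
    cases x with
    | none => simp
    | some y =>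
      have h := congrFun hf' y
      simp only [Option.some.injEq, forall_eq']
      exact h

theorem cp_eq {f : α → β} (hf : Computable f) (b : β) [DecidableEq β] :
    ComputablePred (fun x => f x = b) :=
  cp_comp (p := fun y : β => y = b)
    (PrimrecRel.comp Primrec.eq Primrec.id (Primrec.const b)).computablePred hf

theorem cp_fin [Finite α] (p : α → Prop) : ComputablePred p := by
  classical
  exact ⟨inferInstance, (Primrec.dom_finite _).to_comp⟩

end tools

theorem cp_okO (D : Dat) (U : Finset (Fin D.r)) (b : Fin D.r) :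
    ComputablePred (fun s : Option (Sy D) => okO D U b s) := by
  have h1 : ComputablePred (fun x : Unit × (W (Fin D.n) × Fin D.n × Bool × ℕ) =>
      D.β x.2.2.1 = b) :=
    cp_comp (p := fun v : Fin D.n => D.β v = b) (cp_fin _)
      (Computable.fst.comp (Computable.snd.comp Computable.snd))
  have h2 : ComputablePred (fun _ : Unit × (W (Fin D.n) × W (Fin D.n)) => True) :=
    cp_comp (p := fun _ : Unit => True) (cp_fin _) Computable.fst
  have h3 : ComputablePred (fun x : Unit × (W (Fin D.n) × Fin D.n × Fin D.n × W ℕ) =>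
      okL D U b x.2.2.1 x.2.2.2.1) :=
    cp_comp (p := fun v : Fin D.n × Fin D.n => okL D U b v.1 v.2) (cp_fin _)
      ((Computable.fst.comp (Computable.snd.comp Computable.snd)).pair
        (Computable.fst.comp (Computable.snd.comp (Computable.snd.comp Computable.snd))))
  have h4 := cp_sum (p := fun (_ : Unit) (x : W (Fin D.n) × Fin D.n × Bool × ℕ) => D.β x.2.1 = b)
    (q := fun (_ : Unit) (x : (W (Fin D.n) × W (Fin D.n)) ⊕
      (W (Fin D.n) × Fin D.n × Fin D.n × W ℕ)) =>
      Sum.elim (fun _ => True) (fun y => okL D U b y.2.1 y.2.2.1) x) h1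
    (cp_sum (p := fun (_ : Unit) (_ : W (Fin D.n) × W (Fin D.n)) => True)
      (q := fun (_ : Unit) (y : W (Fin D.n) × Fin D.n × Fin D.n × W ℕ) =>
        okL D U b y.2.1 y.2.2.1) h2 h3)
  have h5 : ComputablePred (fun a : Sy D => okS D U b a) := by
    refine (cp_comp h4 ((Computable.const ()).pair Computable.id)).of_eq fun a => ?_
    rcases a with (⟨g, v, s, n⟩ | (⟨g, y⟩ | ⟨g, v, w, y⟩)) <;> rfl
  refine (cp_opt h5).of_eq fun s => ?_
  cases s with
  | none =>
    constructor
    · intro _
      trivial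
    · intro _ y hy
      cases hy
  | some a =>
    constructor
    · intro h
      exact h a rfl
    · intro h y hy
      cases hy
      exact h

theorem t_ADMX (hn : S_NEARX) (h2 : S_ADM2X) (h3 : S_ADM3X) : S_ADMX := by
  intro D U b hb hs hWU hWb hR
  have P1 : ComputablePred (fun x : Option (Sy D) × (W (Fin D.n) × Fin D.n × Bool × ℕ) =>
      okO D U b x.1 ∧ AdmW D U b x.1 (.inl x.2)) := by
    have c1 : ComputablePred (fun x : Option (Sy D) × (W (Fin D.n) × Fin D.n × Bool × ℕ) =>
        okO D U b x.1) := cp_comp (cp_okO D U b) Computable.fst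
    have c2 : ComputablePred (fun x : Option (Sy D) × (W (Fin D.n) × Fin D.n × Bool × ℕ) =>
        D.β x.2.2.1 = b) :=
      cp_comp (p := fun v : Fin D.n => D.β v = b) (cp_fin _)
        (Computable.fst.comp (Computable.snd.comp Computable.snd))
    have c3 : ComputablePred (fun x : Option (Sy D) × (W (Fin D.n) × Fin D.n × Bool × ℕ) =>
        ¬ x.2.2.2.2 = 0) :=
      (cp_eq (Computable.snd.comp (Computable.snd.comp
        (Computable.snd.comp Computable.snd))) 0).not
    have c4 : ComputablePred (fun x : Option (Sy D) × (W (Fin D.n) × Fin D.n × Bool × ℕ) =>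
        ¬ (okO D U b x.1 ∧ D.β x.2.2.1 = b ∧ NearW D U b x.2.1 x.2.2.1 x.1)) := by
      refine ComputablePred.not ?_
      exact cp_comp (hn D U b hb hWU hR).1 (((Computable.fst.comp Computable.snd).pair
        (Computable.fst.comp (Computable.snd.comp Computable.snd))).pair Computable.fst)
    refine (cp_and c1 (cp_and c2 (cp_and c3 c4))).of_eq fun x => ?_
    rcases x with ⟨s, g, v, e, n⟩
    show (okO D U b s ∧ D.β v = b ∧ ¬ n = 0 ∧ ¬ (okO D U b s ∧ D.β v = b ∧ NearW D U b g v s)) ↔
      (okO D U b s ∧ D.β v = b ∧ n ≠ 0 ∧ ¬ NearW D U b g v s)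
    constructor
    · rintro ⟨a1, a2, a3, a4⟩
      exact ⟨a1, a2, a3, fun h => a4 ⟨a1, a2, h⟩⟩
    · rintro ⟨a1, a2, a3, a4⟩
      exact ⟨a1, a2, a3, fun h => a4 h.2.2⟩
  have P2 : ComputablePred (fun x : Option (Sy D) × (W (Fin D.n) × W (Fin D.n)) =>
      okO D U b x.1 ∧ AdmW D U b x.1 (.inr (.inl x.2))) := h2 D U b hb hWU hWb hR
  have P3 : ComputablePred (fun x : Option (Sy D) × (W (Fin D.n) × Fin D.n × Fin D.n × W ℕ) =>
      okO D U b x.1 ∧ AdmW D U b x.1 (.inr (.inr x.2))) := h3 D U b hb hs hWU hR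
  have P23 : ComputablePred (fun x : Option (Sy D) ×
      ((W (Fin D.n) × W (Fin D.n)) ⊕ (W (Fin D.n) × Fin D.n × Fin D.n × W ℕ)) =>
      okO D U b x.1 ∧ AdmW D U b x.1 (.inr x.2)) := by
    refine (cp_sum (p := fun s u => okO D U b s ∧ AdmW D U b s (.inr (.inl u)))
      (q := fun s u => okO D U b s ∧ AdmW D U b s (.inr (.inr u))) P2 P3).of_eq fun x => ?_
    rcases x with ⟨s, (u | u)⟩ <;> rfl
  refine (cp_sum (p := fun s u => okO D U b s ∧ AdmW D U b s (.inl u))
      (q := fun s u => okO D U b s ∧ AdmW D U b s (.inr u)) P1 P23).of_eq fun x => ?_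
  rcases x with ⟨s, (u | u)⟩ <;> rfl

theorem okS_of_adm {D : Dat} {U : Finset (Fin D.r)} {b : Fin D.r} {s : Option (Sy D)} {a : Sy D}
    (h : AdmW D U b s a) : okS D U b a := by
  rcases a with (⟨g, v, e, n⟩ | (⟨g, y⟩ | ⟨g, v, w, y⟩))
  · exact h.1
  · trivial
  · exact h.1

theorem t_VCC (h : S_ADMX) : S_VCC := by
  intro D U b hb hs hWU hWb hR
  have hch := Pool.Agent.H482R3.EB.Asm.ch (Sy D) inferInstance
    (fun s a => okO D U b s ∧ AdmW D U b s a)
    (fun s l => (l = [] ∨ okO D U b s) ∧ VC D U b s l)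
    (fun s => ⟨Or.inl rfl, trivial⟩)
    (fun s a l => by
      constructor
      · rintro ⟨h1, h2, h3⟩
        have h4 : okO D U b s := h1.resolve_left (List.cons_ne_nil a l)
        exact ⟨⟨h4, h2⟩, Or.inr (okS_of_adm h2), h3⟩
      · rintro ⟨⟨h1, h2⟩, _, h3⟩
        exact ⟨Or.inr h1, h2, h3⟩)
    (h D U b hb hs hWU hWb hR)
  refine (cp_comp hch ((Computable.const (none : Option (Sy D))).pair Computable.id)).of_eq
    fun code => ?_
  constructor
  · intro h1
    exact h1.2
  · intro h1
    exact ⟨Or.inr trivial, h1⟩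

end Pool.Agent.H665.BG.ADM
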